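import Pool.Agent.Helper23_FT.Defs
import Pool.Agent.Helper23_FT.Units

/-!
# The polynomials with given splitting field and given primes in the discriminant
-/

namespace Pool.Agent.FT.H60

open NumberField Module Polynomial Pool.Agent.Helper79FreyD Pool.Agent.Helper65FreyD

/-- The degree of the splitting field. -/
lemma finrank_spl (f : ℤ[X]) (hf : f.Monic) (hs : (toQ f).Separable) :
    FiniteDimensional ℚ (spl f) ∧ finrank ℚ (spl f) ≤ f.natDegree.factorial := by
  have hsp : ((toQ f).map (algebraMap ℚ ℂ)).Splits := IsAlgClosed.splits _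
  have h1 : (toQ f).IsSplittingField ℚ (spl f) :=
    IntermediateField.adjoin_rootSet_isSplittingField hsp
  have e : spl f ≃ₐ[ℚ] (toQ f).SplittingField := Polynomial.IsSplittingField.algEquiv _ (toQ f)
  have hfd : FiniteDimensional ℚ (spl f) := Polynomial.IsSplittingField.finiteDimensional _ (toQ f)
  refine ⟨hfd, ?_⟩
  rw [e.toLinearEquiv.finrank_eq, ← Gal.card_of_separable hs]
  have : Fact ((toQ f).map (algebraMap ℚ ℂ)).Splits := ⟨hsp⟩
  have h2 := Nat.card_le_card_of_injective _ (Gal.galActionHom_injective (toQ f) ℂ)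
  rw [Nat.card_perm] at h2
  refine h2.trans (Nat.factorial_le ?_)
  have h3 : ((toQ f).rootSet ℂ).ncard ≤ (toQ f).natDegree := ncard_rootSet_le _ _
  rw [hf.natDegree_map] at h3
  exact h3

/-- The complex roots. -/
lemma exists_theta (f : ℤ[X]) (hf : f.Monic) (n : ℕ) (hn : f.natDegree = n) :
    ∃ θ : Fin n → ℂ, f.map (Int.castRingHom ℂ) = ∏ i, (X - C (θ i)) := by
  set p : ℂ[X] := f.map (Int.castRingHom ℂ) with hp
  have hpm : p.Monic := hf.map _
  have h1 : p = (p.roots.map fun z => X - C z).prod :=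
    (IsAlgClosed.splits p).eq_prod_roots_of_monic hpm
  have h2 : Multiset.card p.roots = n := by
    rw [← (IsAlgClosed.splits p).natDegree_eq_card_roots, hp, hf.natDegree_map, hn]
  set l := p.roots.toList with hl
  have h3 : l.length = n := by
    rw [hl, Multiset.length_toList, h2]
  refine ⟨fun i => l.get (i.cast h3.symm), ?_⟩
  rw [h1, ← Multiset.coe_toList p.roots, ← hl, Multiset.map_coe, Multiset.prod_coe]
  subst h3
  rw [← List.prod_ofFn]
  congr 1
  apply List.ext_getElem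
  · simp
  · intro i h1 h2
    simp

section

variable (L : IntermediateField ℚ ℂ)

/-- The inclusion. -/
noncomputable def inc : 𝓞 L →+* ℂ := (algebraMap L ℂ).comp (algebraMap (𝓞 L) L)

lemma inc_injective : Function.Injective (inc L) :=
  (algebraMap L ℂ).injective.comp (RingOfIntegers.coe_injective)

lemma exists_theta' (f : ℤ[X]) (hf : f.Monic) (n : ℕ) (hn : f.natDegree = n) (hL : spl f = L) :
    ∃ θ : Fin n → 𝓞 L, f.map (Int.castRingHom (𝓞 L)) = ∏ i, (X - C (θ i)) := by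
  obtain ⟨θ, hθ⟩ := exists_theta f hf n hn
  have hroot : ∀ i, eval₂ (Int.castRingHom ℂ) (θ i) f = 0 := by
    intro i
    rw [← eval_map, hθ, eval_prod]
    exact Finset.prod_eq_zero (Finset.mem_univ i) (by simp)
  have hint : ∀ i, IsIntegral ℤ (θ i) := fun i => ⟨f, hf, hroot i⟩
  have hmem : ∀ i, θ i ∈ L := by
    intro i
    rw [← hL]
    apply IntermediateField.subset_adjoin
    have hQ : (toQ f).Monic := hf.map _
    rw [hQ.mem_rootSet]
    have h1 : aeval (θ i) (f.map (algebraMap ℤ ℚ)) = 0 := by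
      rw [aeval_map_algebraMap]
      exact hroot i
    exact h1
  have hint' : ∀ i, IsIntegral ℤ (⟨θ i, hmem i⟩ : L) := by
    intro i
    have h1 : IsIntegral ℤ (algebraMap L ℂ ⟨θ i, hmem i⟩) := hint i
    exact (isIntegral_algebraMap_iff (algebraMap L ℂ).injective).mp h1
  refine ⟨fun i => ⟨⟨θ i, hmem i⟩, hint' i⟩, ?_⟩
  apply Polynomial.map_injective (inc L) (inc_injective L)
  rw [Polynomial.map_map, Polynomial.map_prod]
  have h1 : (inc L).comp (Int.castRingHom (𝓞 L)) = Int.castRingHom ℂ := RingHom.ext_int _ _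
  rw [h1, hθ]
  refine Finset.prod_congr rfl fun i _ => ?_
  rw [Polynomial.map_sub, map_X, map_C]
  rfl

/-- A prime ideal containing a positive integer contains a prime divisor of it. -/
lemma exists_prime_mem {R : Type*} [CommRing R] (P : Ideal R) (hP : P.IsPrime) (d : ℕ)
    (hd : d ≠ 0) (h : (d : R) ∈ P) : ∃ p : ℕ, p.Prime ∧ p ∣ d ∧ (p : R) ∈ P := by
  induction d using Nat.strong_induction_on with
  | _ d ih =>
  by_cases h1 : d = 1
  · exfalso
    rw [h1, Nat.cast_one] at h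
    exact hP.ne_top ((Ideal.eq_top_iff_one P).mpr h)
  have hp := Nat.minFac_prime h1
  obtain ⟨e, he⟩ := Nat.minFac_dvd d
  have he0 : e ≠ 0 := by
    rintro rfl
    rw [mul_zero] at he
    exact hd he
  have hlt : e < d := by
    have h2 := hp.two_le
    have h3 : 1 ≤ e := Nat.one_le_iff_ne_zero.mpr he0
    calc e < d.minFac * e := by nlinarith
      _ = d := he.symm
  have h2 : ((d.minFac : ℕ) : R) * (e : R) ∈ P := by
    rw [← Nat.cast_mul, ← he]
    exact h
  rcases hP.mem_or_mem h2 with h3 | h3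
  · exact ⟨d.minFac, hp, Nat.minFac_dvd d, h3⟩
  · obtain ⟨p, hp1, hp2, hp3⟩ := ih e hlt he0 h3
    exact ⟨p, hp1, hp2.trans ⟨d.minFac, by rw [mul_comm]; exact he⟩, hp3⟩

/-- The discriminant is not zero. -/
lemma discr_ne_zero_of_fib {n : ℕ} {w : ℕ} (hw : 1 ≤ w) {B : ℝ} {f : ℤ[X]}
    (hf : f ∈ Fib n L w B) : f.discr ≠ 0 := by
  intro h0
  obtain ⟨p, hp1, hp2⟩ := Nat.exists_infinite_primes (w + 1)
  have h1 := hf.2.2.2.2.2.2 p hp2 (by rw [h0]; exact dvd_zero _)
  have h2 := Nat.le_of_dvd hw h1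
  omega

lemma root_theta {n : ℕ} {f : ℤ[X]} {θ : Fin n → 𝓞 L}
    (hθ : f.map (Int.castRingHom (𝓞 L)) = ∏ i, (X - C (θ i))) (ψ : 𝓞 L →+* ℂ) (i : Fin n) :
    eval₂ (Int.castRingHom ℂ) (ψ (θ i)) f = 0 := by
  have h1 : eval₂ (Int.castRingHom (𝓞 L)) (θ i) f = 0 := by
    rw [← eval_map, hθ, eval_prod]
    exact Finset.prod_eq_zero (Finset.mem_univ i) (by simp)
  have h2 := congrArg ψ h1
  rw [hom_eval₂, map_zero] at h2
  have h3 : ψ.comp (Int.castRingHom (𝓞 L)) = Int.castRingHom ℂ := RingHom.ext_int _ _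
  rwa [h3] at h2

lemma theta_injective {n : ℕ} {f : ℤ[X]} {θ : Fin n → 𝓞 L}
    (hθ : f.map (Int.castRingHom (𝓞 L)) = ∏ i, (X - C (θ i))) (hs : (toQ f).Separable) :
    Function.Injective θ := by
  have h1 := hs.map (f := algebraMap ℚ ℂ)
  have h2 : (toQ f).map (algebraMap ℚ ℂ) = ∏ i, (X - C (inc L (θ i))) := by
    have e1 : (toQ f).map (algebraMap ℚ ℂ) = f.map (Int.castRingHom ℂ) := by
      rw [Polynomial.map_map]
      congr 1
    have e2 : (inc L).comp (Int.castRingHom (𝓞 L)) = Int.castRingHom ℂ := RingHom.ext_int _ _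
    rw [e1, ← e2, ← Polynomial.map_map, hθ, Polynomial.map_prod]
    refine Finset.prod_congr rfl fun i _ => ?_
    rw [Polynomial.map_sub, map_X, map_C]
  rw [h2, separable_prod_X_sub_C_iff] at h1
  intro i j hij
  exact h1 (congrArg (inc L) hij)

lemma theta_sum {n : ℕ} {f : ℤ[X]} {θ : Fin n → 𝓞 L}
    (hθ : f.map (Int.castRingHom (𝓞 L)) = ∏ i, (X - C (θ i))) (h0 : f.nextCoeff = 0) :
    ∑ i, θ i = 0 := by
  have h1 := congrArg nextCoeff hθ
  rw [prod_X_sub_C_nextCoeff, nextCoeff_map (Int.castRingHom (𝓞 L)).injective_int, h0,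
    map_zero] at h1
  exact neg_eq_zero.mp h1.symm

/-- A bound for the number of the polynomials. -/
theorem fib_card [NumberField L] (hR3 : R3Stmt) {n : ℕ} (hn : 1 ≤ n) {w : ℕ} (hw : 1 ≤ w)
    {B : ℝ} (hB : 1 ≤ B) : (Fib n L w B).Finite ∧
      (((Fib n L w B).ncard : ℕ) : ℝ) ≤ (((SU L w (2 * B)).ncard : ℝ) + 1) ^ n := by
  classical
  have hex : ∀ f ∈ Fib n L w B, ∃ θ : Fin n → 𝓞 L,
      f.map (Int.castRingHom (𝓞 L)) = ∏ i, (X - C (θ i)) := fun f hf =>
    exists_theta' L f hf.1 n hf.2.1 hf.2.2.2.2.2.1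
  choose! θ hθ using hex
  let o : Fin n := ⟨0, hn⟩
  have hfin : (SU L w (2 * B)).Finite := su_finite w (2 * B) (by linarith)
  let S : Finset (𝓞 L) := insert 0 hfin.toFinset
  let T : Finset (Fin n → 𝓞 L) := Fintype.piFinset fun _ : Fin n => S
  have hmaps : Set.MapsTo (fun f => fun j : Fin n => θ f o - θ f j) (Fib n L w B)
      (T : Set (Fin n → 𝓞 L)) := by
    intro f hf
    have hroot := hθ f hf
    rw [Finset.mem_coe, Fintype.mem_piFinset]
    intro j
    rw [Finset.mem_insert]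
    by_cases hj : o = j
    · left
      show θ f o - θ f j = 0
      rw [hj, sub_self]
    right
    rw [Set.Finite.mem_toFinset]
    have hinj := theta_injective L hroot hf.2.2.2.2.1
    refine ⟨sub_ne_zero.mpr fun h => hj (hinj h), ?_, ?_⟩
    · intro φ
      let ψ : 𝓞 L →+* ℂ := φ.comp (algebraMap (𝓞 L) L)
      have h1 := hf.2.2.2.1 _ (root_theta L hroot ψ o)
      have h2 := hf.2.2.2.1 _ (root_theta L hroot ψ j)
      have h3 : φ ((θ f o - θ f j : 𝓞 L) : L) = ψ (θ f o) - ψ (θ f j) := by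
        rw [← map_sub]
        rfl
      rw [h3]
      calc ‖ψ (θ f o) - ψ (θ f j)‖ ≤ ‖ψ (θ f o)‖ + ‖ψ (θ f j)‖ := norm_sub_le _ _
        _ ≤ 2 * B := by linarith
    · intro P hP hx
      have h1 : (θ f o - θ f j) ∣ (f.discr : 𝓞 L) := hR3 (𝓞 L) f n (θ f) hroot o j hj
      have h2 : (f.discr : 𝓞 L) ∈ P := P.mem_of_dvd h1 hx
      have h3 : ((f.discr.natAbs : ℕ) : 𝓞 L) ∈ P := by
        rcases Int.natAbs_eq f.discr with h | h
        · rw [h] at h2
          simpa using h2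
        · rw [h] at h2
          have := P.neg_mem h2
          simpa using this
      obtain ⟨p, hp1, hp2, hp3⟩ := exists_prime_mem P hP _
        (Int.natAbs_ne_zero.mpr (discr_ne_zero_of_fib L hw hf)) h3
      obtain ⟨c, hc⟩ := hf.2.2.2.2.2.2 p hp1 (Int.natCast_dvd.mpr hp2)
      rw [hc, Nat.cast_mul]
      exact P.mul_mem_right _ hp3
  have hinj : Set.InjOn (fun f => fun j : Fin n => θ f o - θ f j) (Fib n L w B) := by
    intro f hf g hg hfg
    have h1 : ∀ j, θ f o - θ f j = θ g o - θ g j := fun j => congrFun hfg j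
    have h2 : ∑ j, (θ f o - θ f j) = ∑ j, (θ g o - θ g j) :=
      Finset.sum_congr rfl fun j _ => h1 j
    rw [Finset.sum_sub_distrib, Finset.sum_sub_distrib, theta_sum L (hθ f hf) hf.2.2.1,
      theta_sum L (hθ g hg) hg.2.2.1, sub_zero, sub_zero, Finset.sum_const, Finset.sum_const,
      Finset.card_univ, Fintype.card_fin, nsmul_eq_mul, nsmul_eq_mul] at h2
    have hn0 : ((n : ℕ) : 𝓞 L) ≠ 0 := by
      have : n ≠ 0 := by omega
      exact_mod_cast this
    have h3 : θ f o = θ g o := mul_left_cancel₀ hn0 h2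
    have h4 : θ f = θ g := by
      funext j
      have := h1 j
      rw [h3] at this
      exact sub_right_injective this
    apply Polynomial.map_injective (Int.castRingHom (𝓞 L)) (Int.castRingHom (𝓞 L)).injective_int
    rw [hθ f hf, hθ g hg, h4]
  refine ⟨Set.Finite.of_injOn hmaps hinj (Finset.finite_toSet T), ?_⟩
  have h1 := Set.ncard_le_ncard_of_injOn _ hmaps hinj (Finset.finite_toSet T)
  rw [Set.ncard_coe_finset, Fintype.card_piFinset_const] at h1
  have h2 : S.card ≤ (SU L w (2 * B)).ncard + 1 := by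
    refine (Finset.card_insert_le _ _).trans ?_
    rw [Set.ncard_eq_toFinset_card _ hfin]
  calc (((Fib n L w B).ncard : ℕ) : ℝ) ≤ ((S.card ^ n : ℕ) : ℝ) := by exact_mod_cast h1
    _ ≤ _ := by
        push_cast
        have : (S.card : ℝ) ≤ ((SU L w (2 * B)).ncard : ℝ) + 1 := by exact_mod_cast h2
        gcongr

end

/-- Statement F. -/
theorem f (hR3 : R3Stmt) : FStmt := by
  intro n hn ε hε
  have hn0 : (0 : ℝ) < n := by exact_mod_cast hn
  obtain ⟨C, hC, hbd⟩ := su_bound n.factorial (ε / n) (by positivity)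
  refine ⟨(C * 2 ^ (ε / n) + 1) ^ n, by positivity, fun L w B hw hB => ?_⟩
  have hw' : (1 : ℝ) ≤ w := by exact_mod_cast hw
  have hwB : 1 ≤ (w : ℝ) * B := one_le_mul_of_one_le_of_one_le hw' hB
  rcases Set.eq_empty_or_nonempty (Fib n L w B) with h0 | ⟨f₀, hf₀⟩
  · rw [h0]
    refine ⟨Set.finite_empty, ?_⟩
    rw [Set.ncard_empty, Nat.cast_zero]
    positivity
  obtain ⟨hfd, hle⟩ := finrank_spl f₀ hf₀.1 hf₀.2.2.2.2.1
  rw [hf₀.2.2.2.2.2.1, hf₀.2.1] at hle
  rw [hf₀.2.2.2.2.2.1] at hfd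
  have hNF : NumberField L := NumberField.of_module_finite ℚ L
  obtain ⟨h1, h2⟩ := fib_card L hR3 hn hw hB
  refine ⟨h1, h2.trans ?_⟩
  have h3 : ((SU L w (2 * B)).ncard : ℝ) ≤ C * ((w : ℝ) * (2 * B)) ^ (ε / n) := by
    refine hbd L ?_ w hw (2 * B) (by linarith)
    refine le_trans (le_of_eq ?_) hle
    rfl
  have h4 : ((w : ℝ) * (2 * B)) ^ (ε / n) = 2 ^ (ε / n) * ((w : ℝ) * B) ^ (ε / n) := by
    rw [← Real.mul_rpow (by norm_num) (by positivity)]
    congr 1
    ring
  have h5 : 1 ≤ ((w : ℝ) * B) ^ (ε / n) := Real.one_le_rpow hwB (by positivity)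
  rw [h4] at h3
  calc (((SU L w (2 * B)).ncard : ℝ) + 1) ^ n
      ≤ ((C * 2 ^ (ε / n) + 1) * ((w : ℝ) * B) ^ (ε / n)) ^ n := by
        refine pow_le_pow_left₀ (by positivity) ?_ n
        nlinarith
    _ = (C * 2 ^ (ε / n) + 1) ^ n * ((w : ℝ) * B) ^ ε := by
        rw [mul_pow, ← Real.rpow_natCast (((w : ℝ) * B) ^ (ε / n)), ← Real.rpow_mul (by positivity),
          div_mul_cancel₀ _ hn0.ne']

end Pool.Agent.FT.H60
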