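import Pool.Agent.Helper23_FT.Defs

/-!
# The splitting fields of the monic polynomials of degree `n` whose algebra has a small
discriminant
-/

namespace Pool.Agent.FT.H60

open NumberField Module Polynomial IntermediateField Pool.Agent.Helper79FreyD
  Pool.Agent.Helper65FreyD

/-- The types of the irreducible polynomials. -/
def TypI (n : ℕ) : Set (IntermediateField ℚ ℂ × ℕ) :=
  {x | ∃ f : ℤ[X], f.Monic ∧ f.natDegree = n ∧ Irreducible (toQ f) ∧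
    x = (spl f, prodDisc (toQ f))}

lemma spl_mul {f g : ℤ[X]} (hf : f.Monic) (hg : g.Monic) : spl (f * g) = spl f ⊔ spl g := by
  unfold spl
  rw [← adjoin_union]
  congr 1
  ext z
  have h1 : toQ (f * g) = toQ f * toQ g := Polynomial.map_mul _
  have hf' : (toQ f).Monic := hf.map _
  have hg' : (toQ g).Monic := hg.map _
  rw [h1, Set.mem_union, hf'.mem_rootSet, hg'.mem_rootSet, (hf'.mul hg').mem_rootSet, map_mul,
    mul_eq_zero]

/-- The field generated by the complex roots of the minimal polynomial of a generator. -/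
lemma adjoin_rootSet {K : Type} [Field K] [NumberField K] (y : K) (hy : ℚ⟮y⟯ = ⊤) :
    IntermediateField.adjoin ℚ ((minpoly ℚ y).rootSet ℂ) = ⨆ φ : K →ₐ[ℚ] ℂ, φ.fieldRange := by
  rw [← Algebra.IsAlgebraic.range_eval_eq_rootSet_minpoly ℂ y]
  have h1 : Set.range (fun ψ : K →ₐ[ℚ] ℂ => ψ y) = ⋃ ψ : K →ₐ[ℚ] ℂ, {ψ y} := by
    ext z
    simp [eq_comm]
  rw [h1, adjoin_iUnion]
  congr 1
  funext φ
  rw [AlgHom.fieldRange_eq_map, ← hy, adjoin_map, Set.image_singleton]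

lemma spl_eq (f : ℤ[X]) (hf : f.Monic) [Fact (Irreducible (toQ f))] :
    spl f = ⨆ φ : AdjoinRoot (toQ f) →ₐ[ℚ] ℂ, φ.fieldRange := by
  rw [← adjoin_rootSet (AdjoinRoot.root (toQ f)) (Helper79FreyD.adjoin_root_eq_top f),
    minpolyQ_root f hf]
  rfl

/-- The polynomial of a generator has the same splitting field and the same discriminant. -/
lemma spl_minpoly (f : ℤ[X]) (hf : f.Monic) [hfi : Fact (Irreducible (toQ f))]
    (y : 𝓞 (AdjoinRoot (toQ f))) (hy : ℚ⟮(y : AdjoinRoot (toQ f))⟯ = ⊤) :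
    (spl (minpoly ℤ (y : AdjoinRoot (toQ f))),
      prodDisc (toQ (minpoly ℤ (y : AdjoinRoot (toQ f))))) = (spl f, prodDisc (toQ f)) := by
  set P := minpoly ℤ (y : AdjoinRoot (toQ f)) with hP
  have hPm : P.Monic := minpoly.monic y.isIntegral_coe
  have hPQ : toQ P = minpoly ℚ (y : AdjoinRoot (toQ f)) := by
    rw [minpoly.isIntegrallyClosed_eq_field_fractions' ℚ y.isIntegral_coe]
    rfl
  have hyint : IsIntegral ℚ (y : AdjoinRoot (toQ f)) := Algebra.IsSeparable.isIntegral ℚ _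
  have hirr : Irreducible (toQ P) := by
    rw [hPQ]
    exact minpoly.irreducible hyint
  have : Fact (Irreducible (toQ P)) := ⟨hirr⟩
  let e1 : AdjoinRoot (toQ P) ≃ₐ[ℚ] AdjoinRoot (minpoly ℚ (y : AdjoinRoot (toQ f))) :=
    AdjoinRoot.algEquivOfEq ℚ _ _ hPQ
  let e2 : AdjoinRoot (minpoly ℚ (y : AdjoinRoot (toQ f))) ≃ₐ[ℚ]
      ℚ⟮(y : AdjoinRoot (toQ f))⟯ := adjoinRootEquivAdjoin ℚ hyint
  let e3 : ℚ⟮(y : AdjoinRoot (toQ f))⟯ ≃ₐ[ℚ] AdjoinRoot (toQ f) :=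
    (IntermediateField.equivOfEq hy).trans IntermediateField.topEquiv
  let e : AdjoinRoot (toQ P) ≃ₐ[ℚ] AdjoinRoot (toQ f) := (e1.trans e2).trans e3
  refine Prod.ext ?_ ?_
  · show spl P = spl f
    rw [spl_eq f hf, ← adjoin_rootSet _ hy, ← hPQ]
    rfl
  · show prodDisc (toQ P) = prodDisc (toQ f)
    rw [prodDisc_irr (hPm.map _) hirr, prodDisc_irr (hf.map _) hfi.out, dq_toQ, dq_toQ]
    unfold absDisc
    rw [discr_eq_discr_of_algEquiv _ e]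

/-- The number of types of irreducible polynomials. -/
theorem typI_card {n : ℕ} {E : ℝ} (hG : GenSet n E) : ∃ C : ℝ, 0 < C ∧ ∀ X : ℝ, 1 ≤ X →
    {x | x ∈ TypI n ∧ (x.2 : ℝ) ≤ X}.Finite ∧
      (({x | x ∈ TypI n ∧ (x.2 : ℝ) ≤ X}.ncard : ℕ) : ℝ) ≤ C * X ^ E := by
  classical
  obtain ⟨C, hC, hG⟩ := hG
  refine ⟨C, hC, fun X hX => ?_⟩
  obtain ⟨S, hS1, hS2, hS3⟩ := hG X hX
  have hsub : {x | x ∈ TypI n ∧ (x.2 : ℝ) ≤ X} ⊆
      ((S.image fun P => (spl P, prodDisc (toQ P)) : Finset _) : Set _) := by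
    rintro x ⟨⟨f, h1, h2, h3, h4⟩, h5⟩
    have : Fact (Irreducible (toQ f)) := ⟨h3⟩
    have h6 : ((discr (AdjoinRoot (toQ f))).natAbs : ℝ) ≤ X := by
      rw [h4] at h5
      have h7 : prodDisc (toQ f) = (discr (AdjoinRoot (toQ f))).natAbs := by
        rw [prodDisc_irr (h1.map _) h3, dq_toQ]
        rfl
      rw [← h7]
      exact h5
    obtain ⟨y, hy1, hy2⟩ := hS3 (AdjoinRoot (toQ f)) (by rw [finrank_adjoinRoot f h1, h2]) h6
    rw [Finset.mem_coe, Finset.mem_image]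
    exact ⟨_, hy2, (spl_minpoly f h1 y hy1).trans h4.symm⟩
  refine ⟨(Finset.finite_toSet _).subset hsub, ?_⟩
  have h1 := Set.ncard_le_ncard hsub (Finset.finite_toSet _)
  rw [Set.ncard_coe_finset] at h1
  have h2 : (((S.image fun P => (spl P, prodDisc (toQ P))).card : ℕ) : ℝ) ≤ S.card := by
    exact_mod_cast Finset.card_image_le
  exact (by exact_mod_cast h1 : (({x | x ∈ TypI n ∧ (x.2 : ℝ) ≤ X}.ncard : ℕ) : ℝ) ≤ _).trans
    (h2.trans hS2)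

lemma one_le_of_typ {n : ℕ} {x : IntermediateField ℚ ℂ × ℕ} (hx : x ∈ Typ n) : 1 ≤ x.2 := by
  obtain ⟨f, _, _, h⟩ := hx
  rw [h]
  exact one_le_prodDisc _

lemma typI_sub {n : ℕ} : TypI n ⊆ Typ n := by
  rintro x ⟨f, h1, h2, _, h4⟩
  exact ⟨f, h1, h2, h4⟩

/-- A finite set of types with a power sum. -/
theorem sum_typ {S : Set (IntermediateField ℚ ℂ × ℕ)} {C E ε : ℝ} (hC : 0 ≤ C) (hε : 0 < ε)
    (hE : 0 ≤ E) (h1 : ∀ x ∈ S, 1 ≤ x.2)
    (hS : ∀ X : ℝ, 1 ≤ X → {x | x ∈ S ∧ (x.2 : ℝ) ≤ X}.Finite ∧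
      (({x | x ∈ S ∧ (x.2 : ℝ) ≤ X}.ncard : ℕ) : ℝ) ≤ C * X ^ E)
    (s : Finset (IntermediateField ℚ ℂ × ℕ)) (hs : ∀ x ∈ s, x ∈ S) :
    ∑ x ∈ s, (x.2 : ℝ) ^ (-(E + ε)) ≤ C * (2 ^ E / (1 - 2 ^ (-ε))) := by
  classical
  refine dyadic (fun x : IntermediateField ℚ ℂ × ℕ => x.2) C E ε hC hε s
    (fun x hx => h1 x (hs x hx)) (fun N hN => ?_) (by linarith)
  obtain ⟨hfin, hcard⟩ := hS N hN
  refine le_trans ?_ hcard
  rw [← Set.ncard_coe_finset]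
  have hsub : ((s.filter (fun x => (x.2 : ℝ) ≤ N) : Finset _) : Set _) ⊆
      {x | x ∈ S ∧ (x.2 : ℝ) ≤ N} := by
    intro x hx
    rw [Finset.mem_coe, Finset.mem_filter] at hx
    exact ⟨hs x hx.1, hx.2⟩
  exact_mod_cast Set.ncard_le_ncard hsub hfin

/-- The number of types. -/
theorem types (n : ℕ) (hn : 1 ≤ n) (E ε : ℝ) (hE : 0 ≤ E) (hε : 0 < ε)
    (hG : ∀ k, 1 ≤ k → k ≤ n → GenSet k E) : ∃ C : ℝ, 0 < C ∧ ∀ X : ℝ, 1 ≤ X →
      {x | x ∈ Typ n ∧ (x.2 : ℝ) ≤ X}.Finite ∧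
        (({x | x ∈ Typ n ∧ (x.2 : ℝ) ≤ X}.ncard : ℕ) : ℝ) ≤ C * X ^ (E + ε) := by
  classical
  induction n using Nat.strong_induction_on with
  | _ n ih =>
  obtain ⟨C₀, hC₀, h0⟩ := typI_card (hG n hn le_rfl)
  have hS : ∀ k, ∃ C : ℝ, 0 < C ∧ (1 ≤ k → k < n → (∀ X : ℝ, 1 ≤ X →
      {x | x ∈ TypI k ∧ (x.2 : ℝ) ≤ X}.Finite) ∧
      ∀ s : Finset (IntermediateField ℚ ℂ × ℕ),
      (∀ x ∈ s, x ∈ TypI k) → ∑ x ∈ s, (x.2 : ℝ) ^ (-(E + ε)) ≤ C) := by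
    intro k
    by_cases hk : 1 ≤ k ∧ k < n
    · obtain ⟨C, hC, h⟩ := typI_card (hG k hk.1 hk.2.le)
      have h2 : (2 : ℝ) ^ (-ε) < 1 := Real.rpow_lt_one_of_one_lt_of_neg (by norm_num) (by linarith)
      have h3 : (0 : ℝ) < 2 ^ E := Real.rpow_pos_of_pos (by norm_num) _
      have h4 : (0 : ℝ) < 1 - 2 ^ (-ε) := by linarith
      refine ⟨C * (2 ^ E / (1 - 2 ^ (-ε))), by positivity, fun _ _ => ⟨fun X hX => (h X hX).1,
        fun s hs => sum_typ hC.le hε hE (fun x hx => one_le_of_typ (typI_sub hx)) h s hs⟩⟩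
    · exact ⟨1, one_pos, fun h1 h2 => absurd ⟨h1, h2⟩ hk⟩
  have hQ : ∀ k, ∃ C : ℝ, 0 < C ∧ (1 ≤ k → k < n → ∀ X : ℝ, 1 ≤ X →
      {x | x ∈ Typ k ∧ (x.2 : ℝ) ≤ X}.Finite ∧
        (({x | x ∈ Typ k ∧ (x.2 : ℝ) ≤ X}.ncard : ℕ) : ℝ) ≤ C * X ^ (E + ε)) := by
    intro k
    by_cases hk : 1 ≤ k ∧ k < n
    · obtain ⟨C, hC, h⟩ := ih k hk.2 hk.1 (fun j hj hjk => hG j hj (by omega))
      exact ⟨C, hC, fun _ _ => h⟩
    · exact ⟨1, one_pos, fun h1 h2 => absurd ⟨h1, h2⟩ hk⟩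
  choose CS hCS hS using hS
  choose CQ hCQ hQ using hQ
  refine ⟨C₀ + ∑ k ∈ Finset.Ico 1 n, CS k * CQ (n - k), ?_, fun X hX => ?_⟩
  · have : 0 ≤ ∑ k ∈ Finset.Ico 1 n, CS k * CQ (n - k) :=
      Finset.sum_nonneg fun k _ => (mul_pos (hCS k) (hCQ _)).le
    linarith
  have hX0 : 0 < X := by linarith
  obtain ⟨f0, c0⟩ := h0 X hX
  let A : ℕ → Finset (IntermediateField ℚ ℂ × ℕ) := fun k =>
    if hk : 1 ≤ k ∧ k < n then ((hS k hk.1 hk.2).1 X hX).toFinset else ∅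
  have hA : ∀ k, (1 ≤ k ∧ k < n) → ∀ x, x ∈ A k ↔ x ∈ TypI k ∧ (x.2 : ℝ) ≤ X := by
    intro k hk x
    show x ∈ (if hk : 1 ≤ k ∧ k < n then ((hS k hk.1 hk.2).1 X hX).toFinset else ∅) ↔ _
    rw [dif_pos hk, Set.Finite.mem_toFinset]
    rfl
  let U : ℕ → (IntermediateField ℚ ℂ × ℕ) → Set (IntermediateField ℚ ℂ × ℕ) := fun k x =>
    (fun y => (x.1 ⊔ y.1, x.2 * y.2)) '' {y | y ∈ Typ (n - k) ∧ (y.2 : ℝ) ≤ X / x.2}
  have hU : ∀ k, (1 ≤ k ∧ k < n) → ∀ x ∈ A k, (U k x).Finite ∧ ((U k x).ncard : ℝ) ≤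
      CQ (n - k) * (X / x.2) ^ (E + ε) := by
    intro k hk x hx
    rw [hA k hk] at hx
    have h1 : (1 : ℝ) ≤ x.2 := by exact_mod_cast one_le_of_typ (typI_sub hx.1)
    have h2 : 1 ≤ X / x.2 := by
      rw [le_div_iff₀ (by linarith), one_mul]
      exact hx.2
    obtain ⟨h3, h4⟩ := hQ (n - k) (by omega) (by omega) (X / x.2) h2
    refine ⟨h3.image _, le_trans ?_ h4⟩
    exact_mod_cast Set.ncard_image_le h3
  have hsub : {x | x ∈ Typ n ∧ (x.2 : ℝ) ≤ X} ⊆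
      {x | x ∈ TypI n ∧ (x.2 : ℝ) ≤ X} ∪ ⋃ k ∈ Finset.Ico 1 n, ⋃ x ∈ A k, U k x := by
    rintro z ⟨⟨f, h1, h2, h3⟩, h4⟩
    obtain ⟨g, h, hgh, hg, hh, hgd, hgi⟩ := exists_factor f h1 (by omega)
    have hdeg : g.natDegree + h.natDegree = n := by
      rw [← h2, hgh, hg.natDegree_mul hh]
    by_cases hlt : g.natDegree < n
    · right
      have hpd : prodDisc (toQ f) = prodDisc (toQ g) * prodDisc (toQ h) := by
        have e1 : toQ f = toQ g * toQ h := by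
          rw [hgh]
          exact Polynomial.map_mul _
        rw [e1, prodDisc_mul hgi.ne_zero (hh.map _).ne_zero]
      have h5 : z.2 = prodDisc (toQ g) * prodDisc (toQ h) := by
        rw [h3]
        exact hpd
      have h6 : z.1 = spl g ⊔ spl h := by
        rw [h3]
        show spl f = _
        rw [hgh, spl_mul hg hh]
      have ha : (1 : ℝ) ≤ prodDisc (toQ g) := by exact_mod_cast one_le_prodDisc _
      have hb : (1 : ℝ) ≤ prodDisc (toQ h) := by exact_mod_cast one_le_prodDisc _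
      have hc : (prodDisc (toQ g) : ℝ) * prodDisc (toQ h) ≤ X := by
        rw [h5] at h4
        exact_mod_cast h4
      rw [Set.mem_iUnion₂]
      refine ⟨g.natDegree, Finset.mem_Ico.mpr ⟨hgd, hlt⟩, ?_⟩
      rw [Set.mem_iUnion₂]
      refine ⟨(spl g, prodDisc (toQ g)), ?_, (spl h, prodDisc (toQ h)), ⟨⟨h, hh, by omega, rfl⟩, ?_⟩,
        ?_⟩
      · rw [hA _ ⟨hgd, hlt⟩]
        refine ⟨⟨g, hg, rfl, hgi, rfl⟩, ?_⟩
        show (prodDisc (toQ g) : ℝ) ≤ X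
        nlinarith
      · show (prodDisc (toQ h) : ℝ) ≤ X / prodDisc (toQ g)
        rw [le_div_iff₀ (by linarith)]
        linarith
      · exact Prod.ext h6.symm h5.symm
    · left
      have h0 : h.natDegree = 0 := by omega
      have h1' : h = 1 := hh.natDegree_eq_zero.mp h0
      rw [h1', mul_one] at hgh
      exact ⟨⟨f, h1, h2, by rw [hgh]; exact hgi, h3⟩, h4⟩
  have hfinU : (⋃ k ∈ Finset.Ico 1 n, ⋃ x ∈ A k, U k x).Finite := by
    refine (Finset.finite_toSet _).biUnion fun k hk => ?_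
    have hk' : 1 ≤ k ∧ k < n := Finset.mem_Ico.mp (Finset.mem_coe.mp hk)
    exact (Finset.finite_toSet (A k)).biUnion fun g hg => (hU k hk' g hg).1
  refine ⟨(f0.union hfinU).subset hsub, ?_⟩
  have hk1 : ∀ k ∈ Finset.Ico 1 n, ((⋃ x ∈ A k, U k x).ncard : ℝ) ≤
      CS k * CQ (n - k) * X ^ (E + ε) := by
    intro k hk
    have hk' : 1 ≤ k ∧ k < n := Finset.mem_Ico.mp hk
    have h1 : ((⋃ x ∈ A k, U k x).ncard : ℝ) ≤ ∑ x ∈ A k, ((U k x).ncard : ℝ) := by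
      exact_mod_cast Finset.set_ncard_biUnion_le (A k) fun x => U k x
    have h2 : ∑ x ∈ A k, ((U k x).ncard : ℝ) ≤ ∑ x ∈ A k,
        CQ (n - k) * X ^ (E + ε) * (x.2 : ℝ) ^ (-(E + ε)) := by
      refine Finset.sum_le_sum fun x hx => (hU k hk' x hx).2.trans (le_of_eq ?_)
      rw [Real.div_rpow hX0.le (Nat.cast_nonneg _), Real.rpow_neg (Nat.cast_nonneg _)]
      ring
    rw [← Finset.mul_sum] at h2
    have h3 := (hS k hk'.1 hk'.2).2 (A k) (fun x hx => ((hA k hk' x).mp hx).1)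
    have h4 : 0 ≤ CQ (n - k) * X ^ (E + ε) := by
      have := hCQ (n - k)
      positivity
    refine h1.trans (h2.trans ((mul_le_mul_of_nonneg_left h3 h4).trans (le_of_eq ?_)))
    ring
  have h1 := Set.ncard_union_le {x | x ∈ TypI n ∧ (x.2 : ℝ) ≤ X}
    (⋃ k ∈ Finset.Ico 1 n, ⋃ x ∈ A k, U k x)
  have h2 := Set.ncard_le_ncard hsub (f0.union hfinU)
  have h3 : ((⋃ k ∈ Finset.Ico 1 n, ⋃ x ∈ A k, U k x).ncard : ℝ) ≤
      ∑ k ∈ Finset.Ico 1 n, ((⋃ x ∈ A k, U k x).ncard : ℝ) := by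
    exact_mod_cast Finset.set_ncard_biUnion_le (Finset.Ico 1 n) fun k => ⋃ x ∈ A k, U k x
  have h4 := Finset.sum_le_sum hk1
  rw [← Finset.sum_mul] at h4
  have h5 : X ^ E ≤ X ^ (E + ε) := Real.rpow_le_rpow_of_exponent_le hX (by linarith)
  calc (({x | x ∈ Typ n ∧ (x.2 : ℝ) ≤ X}.ncard : ℕ) : ℝ)
      ≤ ({x | x ∈ TypI n ∧ (x.2 : ℝ) ≤ X}.ncard : ℝ) +
        ((⋃ k ∈ Finset.Ico 1 n, ⋃ x ∈ A k, U k x).ncard : ℝ) := by exact_mod_cast h2.trans h1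
    _ ≤ C₀ * X ^ (E + ε) + (∑ k ∈ Finset.Ico 1 n, CS k * CQ (n - k)) * X ^ (E + ε) := by
        refine add_le_add (c0.trans (by gcongr)) (h3.trans h4)
    _ = _ := by ring

theorem s : SStmt := fun n hn E ε hE hε hG => types n hn E ε hE hε hG

end Pool.Agent.FT.H60
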